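import Pool.Agent.K7.H60.LK.Sec
import Pool.Agent.K7.H60.LK.Pr

/-! The first moment of the number of the primes just above the multiples of a power of two. -/

set_option autoImplicit false

namespace Pool.Agent.K7.H60.LK

open Finset

theorem card_odd (r M : ℕ) : ((range M).filter (fun h => (r + h) % 2 = 1)).card =
    (r + M) / 2 - r / 2 := by
  induction M with
  | zero => simp
  | succ M ih =>
    rw [range_add_one, filter_insert]
    split_ifs with h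
    · rw [card_insert_of_notMem (by simp), ih]
      omega
    · rw [ih]
      omega

/-- the primes of one class -/
theorem class_le (n K m : ℕ) (hn : 1 ≤ n) (hm : m ≤ 2 ^ (n + 1)) (hK : 1 ≤ K) :
    ∑ p ∈ (Ioc (2 ^ (8 * n)) ((2 ^ (8 * n)) ^ K)).filter (fun p => p.Prime ∧ p ≡ m [MOD 2 ^ n * 1]),
      (1 : ℝ) / p ≤
    ∑ k ∈ ((Ico (2 ^ (7 * n - 1)) (2 ^ (8 * n * K)) : Finset ℕ)).filter
      (fun k => (2 ^ n * k + m).Prime), (1 : ℝ) / (2 ^ n * k) := by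
  have h2n : 2 ≤ 2 ^ n := by
    calc 2 = 2 ^ 1 := by norm_num
      _ ≤ 2 ^ n := Nat.pow_le_pow_right (by norm_num) hn
  have hkey : ∀ p ∈ (Ioc (2 ^ (8 * n)) ((2 ^ (8 * n)) ^ K)).filter
      (fun p => p.Prime ∧ p ≡ m [MOD 2 ^ n * 1]), p = 2 ^ n * ((p - m) / 2 ^ n) + m ∧
      2 ^ (7 * n - 1) ≤ (p - m) / 2 ^ n ∧ (p - m) / 2 ^ n < 2 ^ (8 * n * K) := by
    intro p hp
    rw [mem_filter, mem_Ioc, mul_one] at hp
    obtain ⟨⟨hp1, hp2⟩, -, hp3⟩ := hp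
    have e1 : 2 ^ (8 * n) = 2 ^ (8 * n - 1) * 2 := by
      rw [← pow_succ]; congr 1; omega
    have e2 : 2 ^ (n + 1) ≤ 2 ^ (8 * n - 1) := Nat.pow_le_pow_right (by norm_num) (by omega)
    have hmp : m ≤ p := by omega
    have hd : 2 ^ n ∣ p - m := (Nat.modEq_iff_dvd' hmp).1 hp3.symm
    have e3 : 2 ^ n * ((p - m) / 2 ^ n) = p - m := Nat.mul_div_cancel' hd
    refine ⟨by omega, ?_, ?_⟩
    · rw [Nat.le_div_iff_mul_le (by positivity), ← pow_add]
      have e4 : 7 * n - 1 + n = 8 * n - 1 := by omega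
      rw [e4]
      omega
    · rw [Nat.div_lt_iff_lt_mul (by positivity)]
      rw [← pow_mul] at hp2
      have h0 : 0 < 2 ^ (8 * n * K) := by positivity
      have h1 : 2 ^ (8 * n * K) * 2 ≤ 2 ^ (8 * n * K) * 2 ^ n := Nat.mul_le_mul_left _ h2n
      omega
  have h1 : ∑ p ∈ (Ioc (2 ^ (8 * n)) ((2 ^ (8 * n)) ^ K)).filter
      (fun p => p.Prime ∧ p ≡ m [MOD 2 ^ n * 1]), (1 : ℝ) / p ≤
      ∑ p ∈ (Ioc (2 ^ (8 * n)) ((2 ^ (8 * n)) ^ K)).filter
      (fun p => p.Prime ∧ p ≡ m [MOD 2 ^ n * 1]), (1 : ℝ) / (2 ^ n * ((p - m) / 2 ^ n : ℕ)) := by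
    apply sum_le_sum
    intro p hp
    obtain ⟨e1, e2, e3⟩ := hkey p hp
    have h0 : 0 < (p - m) / 2 ^ n := lt_of_lt_of_le (by positivity) e2
    apply one_div_le_one_div_of_le
    · have : (0 : ℝ) < ((p - m) / 2 ^ n : ℕ) := by exact_mod_cast h0
      positivity
    · have : 2 ^ n * ((p - m) / 2 ^ n) ≤ p := by omega
      exact_mod_cast this
  refine h1.trans ?_
  rw [← sum_image (g := fun p => (p - m) / 2 ^ n) (f := fun k : ℕ => (1 : ℝ) / (2 ^ n * k))]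
  · apply sum_le_sum_of_subset_of_nonneg
    · intro k hk
      rw [mem_image] at hk
      obtain ⟨p, hp, rfl⟩ := hk
      obtain ⟨e1, e2, e3⟩ := hkey p hp
      rw [mem_filter, mem_Ico, ← e1]
      exact ⟨⟨e2, e3⟩, (mem_filter.1 hp).2.1⟩
    · intro k _ _
      positivity
  · intro p hp p' hp' hpp
    obtain ⟨e1, -, -⟩ := hkey p hp
    obtain ⟨e1', -, -⟩ := hkey p' hp'
    simp only at hpp
    rw [hpp] at e1
    omega

theorem first : ∃ (K : ℕ) (c : ℝ), 1 ≤ K ∧ 0 < c ∧ ∃ n₀ : ℕ, ∀ n : ℕ, n₀ ≤ n → ∀ r H : ℕ,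
    r < 2 ^ n → H ≤ 2 ^ n → c * H ≤
      ∑ k ∈ (Ico (2 ^ (7 * n - 1)) (2 ^ (8 * n * K)) : Finset ℕ), (1 / (k : ℝ)) * (Nk n r H k : ℝ) := by
  obtain ⟨K, c, hK, hc, h⟩ := pr
  obtain ⟨z0, hz0⟩ := h 0
  refine ⟨K, c / 2, hK, by positivity, max z0 1, fun n hn r H hr hH => ?_⟩
  have hn1 : 1 ≤ n := (le_max_right _ _).trans hn
  have hnz : z0 ≤ n := (le_max_left _ _).trans hn
  have hz : z0 ≤ 2 ^ (8 * n) := by
    calc z0 ≤ n := hnz
      _ ≤ 8 * n := by omega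
      _ ≤ 2 ^ (8 * n) := Nat.lt_two_pow_self.le
  have h2n0 : (0 : ℝ) < 2 ^ n := by positivity
  have h1 : ∀ m ∈ (range (H + 1)).filter (fun h => (r + h) % 2 = 1), c / 2 ^ n ≤
      ∑ k ∈ ((Ico (2 ^ (7 * n - 1)) (2 ^ (8 * n * K)) : Finset ℕ)).filter
      (fun k => (2 ^ n * k + (r + m)).Prime), (1 : ℝ) / (2 ^ n * k) := by
    intro m hm
    rw [mem_filter, mem_range] at hm
    have hcop : (r + m).Coprime (2 ^ n * 1) := by
      rw [mul_one]
      apply Nat.Coprime.pow_right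
      rw [Nat.coprime_comm, Nat.Prime.coprime_iff_not_dvd Nat.prime_two]
      omega
    have h2 := hz0 (2 ^ (8 * n)) hz n 1 (r + m) odd_one (by simp)
      (by rw [mul_one, ← pow_mul, mul_comm n 8]) hcop
    have h3 := class_le n K (r + m) hn1 (by rw [pow_succ]; omega) hK
    refine le_trans ?_ (h2.trans h3)
    apply div_le_div_of_nonneg_left hc.le
    · exact_mod_cast Nat.totient_pos.2 (by positivity)
    · have := Nat.totient_le (2 ^ n * 1)
      have h5 : ((Nat.totient (2 ^ n * 1) : ℕ) : ℝ) ≤ ((2 ^ n * 1 : ℕ) : ℝ) := by exact_mod_cast this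
      push_cast at h5
      linarith
  have h2 : (((range (H + 1)).filter (fun h => (r + h) % 2 = 1)).card : ℝ) * (c / 2 ^ n) ≤
      ∑ m ∈ (range (H + 1)).filter (fun h => (r + h) % 2 = 1),
        ∑ k ∈ ((Ico (2 ^ (7 * n - 1)) (2 ^ (8 * n * K)) : Finset ℕ)).filter
      (fun k => (2 ^ n * k + (r + m)).Prime), (1 : ℝ) / (2 ^ n * k) := by
    have := sum_le_sum h1
    rwa [sum_const, nsmul_eq_mul] at this
  have h3 : ∑ m ∈ (range (H + 1)).filter (fun h => (r + h) % 2 = 1),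
        ∑ k ∈ ((Ico (2 ^ (7 * n - 1)) (2 ^ (8 * n * K)) : Finset ℕ)).filter
      (fun k => (2 ^ n * k + (r + m)).Prime), (1 : ℝ) / (2 ^ n * k) ≤
      1 / 2 ^ n * ∑ k ∈ (Ico (2 ^ (7 * n - 1)) (2 ^ (8 * n * K)) : Finset ℕ),
        (1 / (k : ℝ)) * (Nk n r H k : ℝ) := by
    refine (sum_le_sum_of_subset_of_nonneg (filter_subset _ _)
      (fun m _ _ => sum_nonneg fun k _ => by positivity)).trans (le_of_eq ?_)
    simp_rw [sum_filter]
    rw [sum_comm, mul_sum]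
    apply sum_congr rfl
    intro k _
    rw [← sum_filter, sum_const, nsmul_eq_mul]
    unfold Nk
    rw [one_div, one_div, one_div, mul_inv]
    ring
  have h4 : (H : ℝ) / 2 ≤ (((range (H + 1)).filter (fun h => (r + h) % 2 = 1)).card : ℝ) := by
    rw [card_odd]
    have : H ≤ 2 * ((r + (H + 1)) / 2 - r / 2) := by omega
    have h5 : (H : ℝ) ≤ 2 * (((r + (H + 1)) / 2 - r / 2 : ℕ) : ℝ) := by exact_mod_cast this
    linarith
  have h5 : (H : ℝ) / 2 * (c / 2 ^ n) ≤ 1 / 2 ^ n *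
      ∑ k ∈ (Ico (2 ^ (7 * n - 1)) (2 ^ (8 * n * K)) : Finset ℕ),
        (1 / (k : ℝ)) * (Nk n r H k : ℝ) := by
    refine le_trans ?_ (h2.trans h3)
    exact mul_le_mul_of_nonneg_right h4 (by positivity)
  have h6 := mul_le_mul_of_nonneg_left h5 h2n0.le
  have e1 : (2 : ℝ) ^ n * ((H : ℝ) / 2 * (c / 2 ^ n)) = c / 2 * H := by field_simp
  have e2 : ∀ S : ℝ, (2 : ℝ) ^ n * (1 / 2 ^ n * S) = S := by intro S; field_simp
  rw [e1, e2] at h6
  exact h6

end Pool.Agent.K7.H60.LK
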