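import Pool.Agent.Erdos456.Iface
import Pool.Agent.Erdos456.Smooth2

/-! Averages of the singular series. -/

set_option autoImplicit false

namespace Pool.Agent.K7.H60.LK

open Finset Pool.Agent.Erdos456

theorem sum_divisors_swap (H : ℕ) (f : ℕ → ℝ) :
    ∑ m ∈ Ioc 0 H, ∑ d ∈ m.divisors, f d = ∑ d ∈ Ioc 0 H, ((H / d : ℕ) : ℝ) * f d := by
  have h1 : ∀ m ∈ Ioc 0 H, ∑ d ∈ m.divisors, f d = ∑ d ∈ Ioc 0 H, if d ∣ m then f d else 0 := by
    intro m hm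
    rw [mem_Ioc] at hm
    rw [← sum_filter]
    apply sum_congr _ (fun _ _ => rfl)
    ext d
    rw [Nat.mem_divisors, mem_filter, mem_Ioc]
    constructor
    · rintro ⟨h2, h3⟩
      exact ⟨⟨Nat.pos_of_dvd_of_pos h2 hm.1, (Nat.le_of_dvd hm.1 h2).trans hm.2⟩, h2⟩
    · rintro ⟨_, h2⟩
      exact ⟨h2, by omega⟩
  rw [sum_congr rfl h1, sum_comm]
  apply sum_congr rfl
  intro d hd
  rw [← sum_filter, sum_const, nsmul_eq_mul, Nat.Ioc_filter_dvd_card_eq_div]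

theorem sum_GG_sq : ∃ C : ℝ, 0 < C ∧ ∀ H : ℕ, ∑ m ∈ Ioc 0 H, GG m ^ 2 ≤ C * H := by
  obtain ⟨C, hC, h⟩ := GG_sq_le
  have hs : Summable (fun n : ℕ => (n : ℝ) ^ (-(3/2) : ℝ)) := by
    rw [Real.summable_nat_rpow]
    norm_num
  set T := ∑' n : ℕ, (n : ℝ) ^ (-(3/2) : ℝ) with hT
  have hT0 : 0 ≤ T := tsum_nonneg fun n => by positivity
  refine ⟨C * (T + 1), by positivity, fun H => ?_⟩
  have h1 : ∑ m ∈ Ioc 0 H, GG m ^ 2 ≤ C * ∑ d ∈ Ioc 0 H, ((H / d : ℕ) : ℝ) * (d : ℝ) ^ (-(1/2) : ℝ) := by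
    rw [← sum_divisors_swap, mul_sum]
    exact sum_le_sum fun m _ => h m
  have h2 : ∑ d ∈ Ioc 0 H, ((H / d : ℕ) : ℝ) * (d : ℝ) ^ (-(1/2) : ℝ) ≤
      ∑ d ∈ Ioc 0 H, (H : ℝ) * (d : ℝ) ^ (-(3/2) : ℝ) := by
    apply sum_le_sum
    intro d hd
    rw [mem_Ioc] at hd
    have hd0 : (0 : ℝ) < d := by exact_mod_cast hd.1
    have h3 : ((H / d : ℕ) : ℝ) ≤ (H : ℝ) / d := Nat.cast_div_le
    have h4 : (H : ℝ) * (d : ℝ) ^ (-(3/2) : ℝ) = (H : ℝ) / d * (d : ℝ) ^ (-(1/2) : ℝ) := by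
      have : (d : ℝ) ^ (-(3/2) : ℝ) = (d : ℝ)⁻¹ * (d : ℝ) ^ (-(1/2) : ℝ) := by
        rw [← Real.rpow_neg_one, ← Real.rpow_add hd0]; norm_num
      rw [this]; ring
    rw [h4]
    exact mul_le_mul_of_nonneg_right h3 (by positivity)
  have h3 : ∑ d ∈ Ioc 0 H, (H : ℝ) * (d : ℝ) ^ (-(3/2) : ℝ) ≤ H * T := by
    rw [← mul_sum]
    apply mul_le_mul_of_nonneg_left _ (Nat.cast_nonneg _)
    exact hs.sum_le_tsum _ (fun n _ => by positivity)
  calc ∑ m ∈ Ioc 0 H, GG m ^ 2 ≤ C * (H * T) :=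
        h1.trans (mul_le_mul_of_nonneg_left (h2.trans h3) hC.le)
    _ ≤ C * (T + 1) * H := by
        have : 0 ≤ C * H := by positivity
        nlinarith

/-- the prime 2 counts at most twice -/
theorem GG_two_pow (n e : ℕ) (hn : 1 ≤ n) (he : 1 ≤ e) :
    GG (2 ^ n * 2 ^ n * (2 ^ n * e)) ≤ 2 * GG e := by
  have h0 : 0 < 2 ^ n * 2 ^ n * (2 ^ n * e) := by positivity
  have h1 : (2 ^ n * 2 ^ n * (2 ^ n * e)).primeFactors = (2 * e).primeFactors := by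
    rw [Nat.primeFactors_mul (by positivity) (by positivity), Nat.primeFactors_mul (by positivity)
      (by positivity), Nat.primeFactors_mul (by positivity) (by omega),
      Nat.primeFactors_mul (by norm_num) (by omega), Nat.primeFactors_prime_pow (by omega)
      Nat.prime_two, Nat.prime_two.primeFactors]
    ext p
    simp only [mem_union, mem_singleton]
    tauto
  have h2 : GG (2 ^ n * 2 ^ n * (2 ^ n * e)) = GG (2 * e) := by
    rw [GG_eq_prod h0, GG_eq_prod (by omega), h1]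
  rw [h2]
  unfold GG
  have h3 : Nat.totient e ≤ Nat.totient (2 * e) :=
    Nat.le_of_dvd (Nat.totient_pos.2 (by omega)) (Nat.totient_dvd_of_dvd (dvd_mul_left _ _))
  have h4 : (0 : ℝ) < Nat.totient e := by exact_mod_cast Nat.totient_pos.2 he
  have h5 : (Nat.totient e : ℝ) ≤ Nat.totient (2 * e) := by exact_mod_cast h3
  rw [← mul_div_assoc]
  push_cast
  exact div_le_div_of_nonneg_left (by positivity) h4 h5

end Pool.Agent.K7.H60.LK
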