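import Pool.Agent.K7.H60.LK.Fst
import Pool.Agent.K7.H60.SQ.PN
import Pool.Agent.K7.H60.SQ.PN2

/-! Many primes just above a positive proportion of the multiples of a power of two. -/

set_option autoImplicit false

namespace Pool.Agent.K7.H60.LK

open Finset Filter

theorem Nk_eq (n r H k : ℕ) : ((Icc (2 ^ n * k + r) (2 ^ n * k + r + H)).filter Nat.Prime).card =
    Nk n r H k := by
  unfold Nk
  symm
  apply card_bij (fun h _ => 2 ^ n * k + (r + h))
  · intro h hh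
    rw [mem_filter, mem_range] at hh
    rw [mem_filter, mem_Icc]
    exact ⟨⟨by omega, by omega⟩, hh.2⟩
  · intro h _ h' _ e
    omega
  · intro p hp
    rw [mem_filter, mem_Icc] at hp
    refine ⟨p - (2 ^ n * k + r), ?_, by omega⟩
    rw [mem_filter, mem_range]
    refine ⟨by omega, ?_⟩
    have : 2 ^ n * k + (r + (p - (2 ^ n * k + r))) = p := by omega
    rw [this]
    exact hp.2

theorem weight_le (a b : ℕ) (hab : a ≤ b) :
    ∑ k ∈ (Ico (2 ^ a) (2 ^ b) : Finset ℕ), (1 / (k : ℝ)) ≤ ((b - a : ℕ) : ℝ) * 2 := by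
  have h := dyad_sum (fun _ => True) 2 a b hab (fun j _ _ => by
    rw [filter_true, Nat.card_Icc, Nat.add_sub_cancel]
    push_cast
    rw [pow_succ]
    apply le_of_eq
    field_simp)
  rwa [filter_true] at h

theorem main : ∃ C : ℕ, ∃ c δ : ℝ, 0 < c ∧ 0 < δ ∧ ∃ n₀ : ℕ, ∀ n : ℕ, n₀ ≤ n → ∀ r : ℕ,
    r < 2 ^ n → δ * n ≤ ∑ k ∈ (Icc 1 (2 ^ (C * n))).filter (fun k => c * Real.log n ≤
      (((Icc (2 ^ n * k + r) (2 ^ n * k + r + Nat.nth Nat.Prime (n - 1))).filter
        Nat.Prime).card : ℝ)), (1 / (k : ℝ)) := by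
  obtain ⟨K, c0, hK, hc0, n₁, h1⟩ := first
  obtain ⟨C2, hC2, h2⟩ := second
  have hKr : (1 : ℝ) ≤ K := by exact_mod_cast hK
  have hlog : Tendsto (fun n : ℕ => Real.log (n : ℝ)) atTop atTop :=
    Real.tendsto_log_atTop.comp tendsto_natCast_atTop_atTop
  have hpow : ∀ᶠ n : ℕ in atTop, 4 * (n : ℝ) * Real.log n ≤ 2 ^ n := by
    filter_upwards [eventually_ge_atTop 9] with n hn
    have h3 : ∀ m : ℕ, 9 ≤ m → 4 * m * m ≤ 2 ^ m := by
      intro m hm
      induction m, hm using Nat.le_induction with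
      | base => norm_num
      | succ m hm ih =>
        rw [pow_succ]
        nlinarith
    have h4 : 4 * (n : ℝ) * n ≤ 2 ^ n := by exact_mod_cast h3 n hn
    have hn0 : (0 : ℝ) < n := by
      have : 0 < n := by omega
      exact_mod_cast this
    have h5 : Real.log n ≤ n := by
      have := Real.log_le_sub_one_of_pos hn0
      linarith
    have : 4 * (n : ℝ) * Real.log n ≤ 4 * n * n := mul_le_mul_of_nonneg_left h5 (by positivity)
    linarith
  obtain ⟨n₂, h3⟩ := eventually_atTop.1 (SQ.nth_le.and (SQ.nth_ge.and (hpow.and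
    ((eventually_ge_atTop (max n₁ 2)).and (hlog.eventually_ge_atTop 8)))))
  refine ⟨8 * K, c0 / (256 * K), c0 ^ 2 / (4 * (c0 + C2 * K)), by positivity, by positivity, n₂,
    fun n hn r hr => ?_⟩
  obtain ⟨g1, g2, g3, g4, g5⟩ := h3 n hn
  have hn1 : n₁ ≤ n := (le_max_left _ _).trans g4
  have hn2 : 2 ≤ n := (le_max_right _ _).trans g4
  have hn0 : (2 : ℝ) ≤ n := by exact_mod_cast hn2
  set H := Nat.nth Nat.Prime (n - 1) with hH
  have hH2 : H ≤ 2 ^ n := by
    have : (H : ℝ) ≤ 2 ^ n := g1.trans g3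
    exact_mod_cast this
  have hHn : (n : ℝ) ≤ H := by
    refine le_trans ?_ g2
    rw [le_div_iff₀ (by norm_num)]
    exact mul_le_mul_of_nonneg_left g5 (by linarith)
  have hH1 : 1 ≤ H := by
    have : n ≤ H := by exact_mod_cast hHn
    omega
  set a := 7 * n - 1 with ha
  set b := 8 * n * K with hb
  have hab : a ≤ b := by
    have : 8 * n * 1 ≤ 8 * n * K := Nat.mul_le_mul_left _ hK
    omega
  have ha6 : 6 * n ≤ a := by omega
  have ha6r : 6 * (n : ℝ) ≤ a := by exact_mod_cast ha6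
  have hbr : ((b - a : ℕ) : ℝ) ≤ 8 * n * K := by
    have : b - a ≤ 8 * n * K := by omega
    exact_mod_cast this
  set S1 := ∑ k ∈ (Ico (2 ^ a) (2 ^ b) : Finset ℕ), (1 / (k : ℝ)) * (Nk n r H k : ℝ) with hS1
  set S2 := ∑ k ∈ (Ico (2 ^ a) (2 ^ b) : Finset ℕ), (1 / (k : ℝ)) * (Nk n r H k : ℝ) ^ 2 with hS2
  have f1 : c0 * H ≤ S1 := h1 n hn1 r H hr hH2
  have f2 : S2 ≤ S1 + C2 * K * (H : ℝ) ^ 2 / n := by
    refine (h2 n r H a b (by omega) (by omega) hab hH1).trans ?_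
    apply add_le_add_right
    have e1 : 36 * (n : ℝ) ^ 2 ≤ (a : ℝ) ^ 2 := by
      calc 36 * (n : ℝ) ^ 2 = (6 * (n : ℝ)) ^ 2 := by ring
        _ ≤ _ := pow_le_pow_left₀ (by positivity) ha6r 2
    calc C2 * (H : ℝ) ^ 2 * ((b - a : ℕ) : ℝ) / (a : ℝ) ^ 2 ≤
          C2 * (H : ℝ) ^ 2 * (8 * n * K) / (36 * (n : ℝ) ^ 2) := by
          apply div_le_div₀ (by positivity) _ (by positivity) e1
          exact mul_le_mul_of_nonneg_left hbr (by positivity)
      _ = C2 * K * (H : ℝ) ^ 2 / n * (8 / 36) := by field_simp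
      _ ≤ _ := by
          apply mul_le_of_le_one_right (by positivity)
          norm_num
  have f3 : ∑ k ∈ (Ico (2 ^ a) (2 ^ b) : Finset ℕ), (1 / (k : ℝ)) ≤ 16 * n * K := by
    refine (weight_le a b hab).trans ?_
    nlinarith
  set η : ℝ := c0 * H / (32 * n * K) with hη
  have hη0 : 0 ≤ η := by positivity
  set G := ((Ico (2 ^ a) (2 ^ b) : Finset ℕ)).filter (fun k => η ≤ (Nk n r H k : ℝ)) with hG
  set W := ∑ k ∈ G, (1 / (k : ℝ)) with hW
  have f4 : S1 / 2 ≤ ∑ k ∈ G, (1 / (k : ℝ)) * (Nk n r H k : ℝ) := by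
    have e1 : S1 = ∑ k ∈ G, (1 / (k : ℝ)) * (Nk n r H k : ℝ) +
        ∑ k ∈ ((Ico (2 ^ a) (2 ^ b) : Finset ℕ)).filter (fun k => ¬ η ≤ (Nk n r H k : ℝ)),
          (1 / (k : ℝ)) * (Nk n r H k : ℝ) := by
      rw [hS1, hG, sum_filter_add_sum_filter_not]
    have e2 : ∑ k ∈ ((Ico (2 ^ a) (2 ^ b) : Finset ℕ)).filter (fun k => ¬ η ≤ (Nk n r H k : ℝ)),
          (1 / (k : ℝ)) * (Nk n r H k : ℝ) ≤ c0 * H / 2 := by
      calc _ ≤ ∑ k ∈ ((Ico (2 ^ a) (2 ^ b) : Finset ℕ)).filter (fun k => ¬ η ≤ (Nk n r H k : ℝ)),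
            (1 / (k : ℝ)) * η := by
            apply sum_le_sum
            intro k hk
            rw [mem_filter] at hk
            exact mul_le_mul_of_nonneg_left (not_le.1 hk.2).le (by positivity)
        _ ≤ ∑ k ∈ (Ico (2 ^ a) (2 ^ b) : Finset ℕ), (1 / (k : ℝ)) * η :=
            sum_le_sum_of_subset_of_nonneg (filter_subset _ _) (fun k _ _ => by positivity)
        _ = (∑ k ∈ (Ico (2 ^ a) (2 ^ b) : Finset ℕ), (1 / (k : ℝ))) * η := by rw [sum_mul]
        _ ≤ (16 * n * K) * η := mul_le_mul_of_nonneg_right f3 hη0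
        _ = c0 * H / 2 := by rw [hη]; field_simp; ring
    linarith
  have f5 : (∑ k ∈ G, (1 / (k : ℝ)) * (Nk n r H k : ℝ)) ^ 2 ≤ W * S2 := by
    have e1 : ∑ k ∈ G, (1 / (k : ℝ)) * (Nk n r H k : ℝ) =
        ∑ k ∈ G, Real.sqrt (1 / (k : ℝ)) * (Real.sqrt (1 / (k : ℝ)) * (Nk n r H k : ℝ)) := by
      apply sum_congr rfl
      intro k _
      rw [← mul_assoc, Real.mul_self_sqrt (by positivity)]
    rw [e1]
    refine (sum_mul_sq_le_sq_mul_sq G _ _).trans ?_
    have e2 : ∑ k ∈ G, Real.sqrt (1 / (k : ℝ)) ^ 2 = W := by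
      rw [hW]
      apply sum_congr rfl
      intro k _
      exact Real.sq_sqrt (by positivity)
    have e3 : ∑ k ∈ G, (Real.sqrt (1 / (k : ℝ)) * (Nk n r H k : ℝ)) ^ 2 ≤ S2 := by
      calc _ = ∑ k ∈ G, (1 / (k : ℝ)) * (Nk n r H k : ℝ) ^ 2 := by
            apply sum_congr rfl
            intro k _
            rw [mul_pow, Real.sq_sqrt (by positivity)]
        _ ≤ _ := sum_le_sum_of_subset_of_nonneg (filter_subset _ _) (fun k _ _ => by positivity)
    rw [e2]
    apply mul_le_mul_of_nonneg_left e3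
    rw [hW]
    exact sum_nonneg fun k _ => by positivity
  have hS10 : 0 < S1 := lt_of_lt_of_le (by positivity) f1
  set Kc : ℝ := C2 * K with hKc
  have hKc0 : 0 < Kc := by positivity
  have hW0 : 0 ≤ W := sum_nonneg fun k _ => by positivity
  have f6 : c0 ^ 2 / (4 * (c0 + Kc)) * n ≤ W := by
    have e1 : (S1 / 2) ^ 2 ≤ W * (S1 + Kc * (H : ℝ) ^ 2 / n) := by
      refine (pow_le_pow_left₀ (by linarith) f4 2).trans (f5.trans ?_)
      exact mul_le_mul_of_nonneg_left f2 hW0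
    have hD : 0 < S1 + Kc * (H : ℝ) ^ 2 / n := by positivity
    have e2 : c0 ^ 2 / (4 * (c0 + Kc)) * n * (S1 + Kc * (H : ℝ) ^ 2 / n) ≤ (S1 / 2) ^ 2 := by
      have e3 : c0 ^ 2 / (4 * (c0 + Kc)) * n * (S1 + Kc * (H : ℝ) ^ 2 / n) =
          (c0 * (c0 * (n * S1)) + Kc * (c0 * H) ^ 2) / (4 * (c0 + Kc)) := by
        field_simp
      rw [e3, div_le_iff₀ (by positivity)]
      have e4 : (c0 * H) ^ 2 ≤ S1 ^ 2 := pow_le_pow_left₀ (by positivity) f1 2
      have e5 : c0 * (n * S1) ≤ S1 ^ 2 := by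
        calc c0 * (n * S1) ≤ c0 * (H * S1) := by
              apply mul_le_mul_of_nonneg_left _ hc0.le
              exact mul_le_mul_of_nonneg_right hHn hS10.le
          _ = (c0 * H) * S1 := by ring
          _ ≤ S1 * S1 := mul_le_mul_of_nonneg_right f1 hS10.le
          _ = _ := by ring
      have e6 := mul_le_mul_of_nonneg_left e4 hKc0.le
      have e7 := mul_le_mul_of_nonneg_left e5 hc0.le
      calc c0 * (c0 * (n * S1)) + Kc * (c0 * H) ^ 2 ≤ c0 * S1 ^ 2 + Kc * S1 ^ 2 := by linarith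
        _ = (S1 / 2) ^ 2 * (4 * (c0 + Kc)) := by ring
    exact le_of_mul_le_mul_right (e2.trans e1) hD
  refine f6.trans ?_
  rw [hW]
  apply sum_le_sum_of_subset_of_nonneg
  · intro k hk
    rw [hG, mem_filter, mem_Ico] at hk
    rw [mem_filter, mem_Icc, Nk_eq]
    have h2a : 0 < 2 ^ a := by positivity
    refine ⟨⟨by omega, ?_⟩, ?_⟩
    · have e : 8 * K * n = b := by rw [hb]; ring
      rw [e]
      exact hk.1.2.le
    · refine le_trans ?_ hk.2
      rw [hη]
      have e1 : c0 / (256 * K) * Real.log n = c0 * (n * Real.log n / 8) / (32 * n * K) := by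
        field_simp
        ring
      rw [e1]
      apply div_le_div_of_nonneg_right _ (by positivity)
      exact mul_le_mul_of_nonneg_left g2 hc0.le
  · intro k _ _
    positivity

end Pool.Agent.K7.H60.LK
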