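import Pool.Agent.K7.H60.LK.GGs

/-! The second moment of the number of the primes just above the multiples of a power of two. -/

set_option autoImplicit false

namespace Pool.Agent.K7.H60.LK

open Finset Pool.Agent.Erdos456

/-- one dyadic range -/
theorem dyad_one (f : ℕ → Prop) [DecidablePred f] (j : ℕ) :
    ∑ k ∈ (Ico (2 ^ j) (2 ^ (j + 1))).filter f, (1 / (k : ℝ)) ≤
      1 / 2 ^ j * (((Icc 1 (2 ^ (j + 1))).filter f).card : ℝ) := by
  have h1 : ∑ k ∈ (Ico (2 ^ j) (2 ^ (j + 1))).filter f, (1 / (k : ℝ)) ≤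
      ∑ k ∈ (Ico (2 ^ j) (2 ^ (j + 1))).filter f, (1 / (2 : ℝ) ^ j) := by
    apply sum_le_sum
    intro k hk
    rw [mem_filter, mem_Ico] at hk
    apply one_div_le_one_div_of_le (by positivity)
    exact_mod_cast hk.1.1
  refine h1.trans ?_
  rw [sum_const, nsmul_eq_mul, mul_comm]
  apply mul_le_mul_of_nonneg_left _ (by positivity)
  apply Nat.cast_le.mpr
  apply card_le_card
  intro k hk
  rw [mem_filter, mem_Ico] at hk
  rw [mem_filter, mem_Icc]
  have : 0 < 2 ^ j := by positivity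
  exact ⟨⟨by omega, by omega⟩, hk.2⟩

theorem dyad_sum (f : ℕ → Prop) [DecidablePred f] (B : ℝ) (a b : ℕ) (hab : a ≤ b)
    (h : ∀ j, a ≤ j → j < b →
      1 / 2 ^ j * (((Icc 1 (2 ^ (j + 1))).filter f).card : ℝ) ≤ B) :
    ∑ k ∈ (Ico (2 ^ a) (2 ^ b)).filter f, (1 / (k : ℝ)) ≤ ((b - a : ℕ) : ℝ) * B := by
  induction b, hab using Nat.le_induction with
  | base => simp
  | succ b hab ih =>
    have h1 := ih (fun j hj1 hj2 => h j hj1 (by omega))
    have h2 : (Ico (2 ^ a) (2 ^ (b + 1))).filter f ⊆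
        (Ico (2 ^ a) (2 ^ b)).filter f ∪ (Ico (2 ^ b) (2 ^ (b + 1))).filter f := by
      intro k hk
      rw [mem_filter, mem_Ico] at hk
      rw [mem_union, mem_filter, mem_filter, mem_Ico, mem_Ico]
      by_cases hkb : k < 2 ^ b
      · exact Or.inl ⟨⟨hk.1.1, hkb⟩, hk.2⟩
      · exact Or.inr ⟨⟨by omega, hk.1.2⟩, hk.2⟩
    have h3 : ∑ k ∈ (Ico (2 ^ a) (2 ^ (b + 1))).filter f, (1 / (k : ℝ)) ≤
        ∑ k ∈ (Ico (2 ^ a) (2 ^ b)).filter f, (1 / (k : ℝ)) +
        ∑ k ∈ (Ico (2 ^ b) (2 ^ (b + 1))).filter f, (1 / (k : ℝ)) := by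
      refine (sum_le_sum_of_subset_of_nonneg h2 fun k _ _ => by positivity).trans ?_
      have h4 := sum_union_inter (s₁ := (Ico (2 ^ a) (2 ^ b)).filter f)
        (s₂ := (Ico (2 ^ b) (2 ^ (b + 1))).filter f) (f := fun k : ℕ => (1 / (k : ℝ)))
      have h5 : 0 ≤ ∑ k ∈ (Ico (2 ^ a) (2 ^ b)).filter f ∩ (Ico (2 ^ b) (2 ^ (b + 1))).filter f,
          (1 / (k : ℝ)) := sum_nonneg fun k _ => by positivity
      linarith
    have h4 := (dyad_one f b).trans (h b hab (by omega))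
    have h5 : ((b + 1 - a : ℕ) : ℝ) = ((b - a : ℕ) : ℝ) + 1 := by
      rw [show b + 1 - a = (b - a) + 1 by omega]; push_cast; ring
    rw [h5]
    linarith

theorem not_prime_even {n k m : ℕ} (hn : 1 ≤ n) (hk : 2 ≤ k) (hm : ¬ Nat.Coprime (2 ^ n) m) :
    ¬ (2 ^ n * k + m).Prime := by
  intro hp
  have h1 : 2 ∣ m := by
    by_contra h2
    apply hm
    apply Nat.Coprime.pow_left
    exact (Nat.Prime.coprime_iff_not_dvd Nat.prime_two).2 h2
  have h2 : 2 ∣ 2 ^ n * k + m := dvd_add ((dvd_pow_self 2 (by omega)).mul_right k) h1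
  have h3 := (Nat.prime_dvd_prime_iff_eq Nat.prime_two hp).1 h2
  have h4 : 2 ≤ 2 ^ n := by
    calc 2 = 2 ^ 1 := by norm_num
      _ ≤ 2 ^ n := Nat.pow_le_pow_right (by norm_num) hn
  have h5 : 2 * 2 ≤ 2 ^ n * k := Nat.mul_le_mul h4 hk
  omega

/-- pairs -/
theorem pair_le : ∃ C : ℝ, 0 < C ∧ ∀ n r a b h h' : ℕ, 1 ≤ n → 1 ≤ a → a ≤ b → h < h' →
    ∑ k ∈ (Ico (2 ^ a) (2 ^ b)).filter (fun k => (2 ^ n * k + (r + h)).Prime ∧
      (2 ^ n * k + (r + h')).Prime), (1 / (k : ℝ)) ≤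
      ((b - a : ℕ) : ℝ) * (C * GG (h' - h) ^ 2 / (a : ℝ) ^ 2) := by
  obtain ⟨C, hC, hs⟩ := sieve_two'
  refine ⟨8 * C / (Real.log 2) ^ 2, by have := Real.log_pos (show (1:ℝ) < 2 by norm_num); positivity,
    fun n r a b h h' hn ha hab hh => ?_⟩
  have hlog2 : 0 < Real.log 2 := Real.log_pos (by norm_num)
  have ha0 : (0 : ℝ) < a := by exact_mod_cast ha
  by_cases hc : Nat.Coprime (2 ^ n) (r + h) ∧ Nat.Coprime (2 ^ n) (r + h')
  · apply dyad_sum _ _ _ _ hab
    intro j hj1 hj2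
    have h2j : 2 ≤ 2 ^ (j + 1) := by
      calc 2 = 2 ^ 1 := by norm_num
        _ ≤ 2 ^ (j + 1) := Nat.pow_le_pow_right (by norm_num) (by omega)
    have h1 := hs (2 ^ n) (r + h) (2 ^ n) (r + h') (2 ^ (j + 1)) (by positivity) (by positivity)
      hc.1 hc.2 (by
        intro e
        have : 0 < 2 ^ n := by positivity
        have := Nat.eq_of_mul_eq_mul_left this e
        omega) h2j
    have e1 : (((2 ^ n * (r + h') : ℕ) : ℤ) - ((2 ^ n * (r + h) : ℕ) : ℤ)).natAbs =
        2 ^ n * (h' - h) := by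
      have : ((2 ^ n * (r + h') : ℕ) : ℤ) - ((2 ^ n * (r + h) : ℕ) : ℤ) =
          ((2 ^ n * (h' - h) : ℕ) : ℤ) := by
        push_cast [Nat.cast_sub hh.le]
        ring
      rw [this, Int.natAbs_natCast]
    rw [e1] at h1
    have h3 := GG_two_pow n (h' - h) hn (by omega)
    have hG0 : 0 ≤ GG (2 ^ n * 2 ^ n * (2 ^ n * (h' - h))) := by unfold GG; positivity
    have h4 : GG (2 ^ n * 2 ^ n * (2 ^ n * (h' - h))) ^ 2 ≤ 4 * GG (h' - h) ^ 2 := by
      calc GG (2 ^ n * 2 ^ n * (2 ^ n * (h' - h))) ^ 2 ≤ (2 * GG (h' - h)) ^ 2 :=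
            pow_le_pow_left₀ hG0 h3 2
        _ = _ := by ring
    have h5 : (a : ℝ) * Real.log 2 ≤ Real.log ((2 ^ (j + 1) : ℕ) : ℝ) := by
      push_cast
      rw [Real.log_pow]
      apply mul_le_mul_of_nonneg_right _ hlog2.le
      push_cast
      have : (a : ℝ) ≤ j := by exact_mod_cast hj1
      linarith
    have h6 : ((a : ℝ) * Real.log 2) ^ 2 ≤ (Real.log ((2 ^ (j + 1) : ℕ) : ℝ)) ^ 2 :=
      pow_le_pow_left₀ (by positivity) h5 2
    calc 1 / 2 ^ j * (((Icc 1 (2 ^ (j + 1))).filter (fun k => (2 ^ n * k + (r + h)).Prime ∧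
          (2 ^ n * k + (r + h')).Prime)).card : ℝ) ≤
          1 / 2 ^ j * (C * (4 * GG (h' - h) ^ 2) * ((2 ^ (j + 1) : ℕ) : ℝ) /
            ((a : ℝ) * Real.log 2) ^ 2) := by
          apply mul_le_mul_of_nonneg_left _ (by positivity)
          refine h1.trans ?_
          apply div_le_div₀ (by positivity) _ (by positivity) h6
          apply mul_le_mul_of_nonneg_right _ (by positivity)
          exact mul_le_mul_of_nonneg_left h4 hC.le
      _ = 8 * C / Real.log 2 ^ 2 * GG (h' - h) ^ 2 / (a : ℝ) ^ 2 := by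
          push_cast
          rw [pow_succ]
          field_simp
          ring
  · have h1 : (Ico (2 ^ a) (2 ^ b)).filter (fun k => (2 ^ n * k + (r + h)).Prime ∧
      (2 ^ n * k + (r + h')).Prime) = ∅ := by
      apply filter_eq_empty_iff.2
      intro k hk
      rw [mem_Ico] at hk
      have hk2 : 2 ≤ k := by
        calc 2 = 2 ^ 1 := by norm_num
          _ ≤ 2 ^ a := Nat.pow_le_pow_right (by norm_num) ha
          _ ≤ k := hk.1
      rintro ⟨h2, h3⟩
      apply hc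
      constructor
      · by_contra h4
        exact not_prime_even hn hk2 h4 h2
      · by_contra h4
        exact not_prime_even hn hk2 h4 h3
    rw [h1, sum_empty]
    positivity

/-- the number of the primes -/
noncomputable def Nk (n r H k : ℕ) : ℕ :=
  ((range (H + 1)).filter (fun h => (2 ^ n * k + (r + h)).Prime)).card

theorem Nk_sq (n r H k : ℕ) : ((Nk n r H k : ℕ) : ℝ) ^ 2 = (Nk n r H k : ℝ) +
    ∑ h ∈ range (H + 1), ∑ h' ∈ range (H + 1), (if h < h' then
      (if (2 ^ n * k + (r + h)).Prime ∧ (2 ^ n * k + (r + h')).Prime then (2 : ℝ) else 0) else 0) := by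
  set P : ℕ → Prop := fun h => (2 ^ n * k + (r + h)).Prime with hP
  set f : ℕ → ℝ := fun h => if P h then 1 else 0 with hf
  have h0 : ((Nk n r H k : ℕ) : ℝ) = ∑ h ∈ range (H + 1), f h := by
    unfold Nk
    rw [card_filter]
    push_cast
    rfl
  have h1 : ∀ M : ℕ, (∑ h ∈ range M, f h) ^ 2 = ∑ h ∈ range M, f h +
      ∑ h ∈ range M, ∑ h' ∈ range M, (if h < h' then (if P h ∧ P h' then (2 : ℝ) else 0) else 0) := by
    intro M
    induction M with
    | zero => simp
    | succ M ih =>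
      rw [sum_range_succ, add_sq, ih]
      have e1 : ∑ h ∈ range (M + 1), ∑ h' ∈ range (M + 1),
          (if h < h' then (if P h ∧ P h' then (2 : ℝ) else 0) else 0) =
          ∑ h ∈ range M, ∑ h' ∈ range M,
            (if h < h' then (if P h ∧ P h' then (2 : ℝ) else 0) else 0) +
          ∑ h ∈ range M, 2 * f h * f M := by
        rw [sum_range_succ]
        have e2 : ∑ h' ∈ range (M + 1), (if M < h' then (if P M ∧ P h' then (2 : ℝ) else 0) else 0) = 0 := by
          apply sum_eq_zero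
          intro h' hh'
          rw [mem_range] at hh'
          rw [if_neg (by omega)]
        rw [e2, add_zero, ← sum_add_distrib]
        apply sum_congr rfl
        intro h hh
        rw [mem_range] at hh
        rw [sum_range_succ, if_pos hh]
        congr 1
        simp only [hf]
        by_cases c1 : P h <;> by_cases c2 : P M <;> simp [c1, c2]
      rw [e1]
      have e3 : f M ^ 2 = f M := by
        simp only [hf]
        split_ifs <;> norm_num
      rw [e3]
      have e4 : ∑ h ∈ range M, 2 * f h * f M = 2 * (∑ h ∈ range M, f h) * f M := by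
        rw [← sum_mul, ← mul_sum]
      rw [e4]
      ring
  rw [h0]
  exact h1 (H + 1)

/-- the second moment -/
theorem second : ∃ C : ℝ, 0 < C ∧ ∀ n r H a b : ℕ, 1 ≤ n → 1 ≤ a → a ≤ b → 1 ≤ H →
    ∑ k ∈ (Ico (2 ^ a) (2 ^ b) : Finset ℕ), (1 / (k : ℝ)) * (Nk n r H k : ℝ) ^ 2 ≤
      ∑ k ∈ (Ico (2 ^ a) (2 ^ b) : Finset ℕ), (1 / (k : ℝ)) * (Nk n r H k : ℝ) +
        C * H ^ 2 * ((b - a : ℕ) : ℝ) / (a : ℝ) ^ 2 := by
  obtain ⟨C1, hC1, h1⟩ := pair_le
  obtain ⟨C2, hC2, h2⟩ := sum_GG_sq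
  refine ⟨4 * C1 * C2, by positivity, fun n r H a b hn ha hab hH => ?_⟩
  have ha0 : (0 : ℝ) < a := by exact_mod_cast ha
  have hH0 : (1 : ℝ) ≤ H := by exact_mod_cast hH
  have e1 : ∑ k ∈ (Ico (2 ^ a) (2 ^ b) : Finset ℕ), (1 / (k : ℝ)) * (Nk n r H k : ℝ) ^ 2 =
      ∑ k ∈ (Ico (2 ^ a) (2 ^ b) : Finset ℕ), (1 / (k : ℝ)) * (Nk n r H k : ℝ) +
      ∑ h ∈ range (H + 1), ∑ h' ∈ range (H + 1), (if h < h' then
        2 * ∑ k ∈ (Ico (2 ^ a) (2 ^ b)).filter (fun k => (2 ^ n * k + (r + h)).Prime ∧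
      (2 ^ n * k + (r + h')).Prime), (1 / (k : ℝ)) else 0) := by
    have e2 : ∀ k ∈ (Ico (2 ^ a) (2 ^ b) : Finset ℕ), (1 / (k : ℝ)) * (Nk n r H k : ℝ) ^ 2 =
        (1 / (k : ℝ)) * (Nk n r H k : ℝ) + ∑ h ∈ range (H + 1), ∑ h' ∈ range (H + 1),
          (if h < h' then (if (2 ^ n * k + (r + h)).Prime ∧ (2 ^ n * k + (r + h')).Prime then
            2 * (1 / (k : ℝ)) else 0) else 0) := by
      intro k _
      rw [Nk_sq, mul_add, mul_sum]
      congr 1
      apply sum_congr rfl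
      intro h _
      rw [mul_sum]
      apply sum_congr rfl
      intro h' _
      split_ifs <;> ring
    rw [sum_congr rfl e2, sum_add_distrib]
    congr 1
    rw [sum_comm]
    apply sum_congr rfl
    intro h _
    rw [sum_comm]
    apply sum_congr rfl
    intro h' _
    split_ifs with hlt
    · rw [sum_filter, mul_sum]
      apply sum_congr rfl
      intro k _
      split_ifs <;> ring
    · exact sum_const_zero
  rw [e1]
  apply add_le_add_right
  set Bb : ℝ := ((b - a : ℕ) : ℝ) with hBb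
  have hBb0 : 0 ≤ Bb := Nat.cast_nonneg _
  have e3 : ∀ h ∈ range (H + 1), ∑ h' ∈ range (H + 1), (if h < h' then
        2 * ∑ k ∈ (Ico (2 ^ a) (2 ^ b)).filter (fun k => (2 ^ n * k + (r + h)).Prime ∧
      (2 ^ n * k + (r + h')).Prime), (1 / (k : ℝ)) else 0) ≤ 2 * (Bb * (C1 * (C2 * H) / (a : ℝ) ^ 2)) := by
    intro h hh
    rw [mem_range] at hh
    rw [← sum_filter, ← mul_sum]
    apply mul_le_mul_of_nonneg_left _ (by norm_num)
    have e4 : ∑ h' ∈ (range (H + 1)).filter (fun h' => h < h'),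
        ∑ k ∈ (Ico (2 ^ a) (2 ^ b)).filter (fun k => (2 ^ n * k + (r + h)).Prime ∧
      (2 ^ n * k + (r + h')).Prime), (1 / (k : ℝ)) ≤
        ∑ h' ∈ (range (H + 1)).filter (fun h' => h < h'), Bb * (C1 * GG (h' - h) ^ 2 / (a : ℝ) ^ 2) := by
      apply sum_le_sum
      intro h' hh'
      rw [mem_filter] at hh'
      exact h1 n r a b h h' hn ha hab hh'.2
    refine e4.trans ?_
    rw [← mul_sum]
    apply mul_le_mul_of_nonneg_left _ hBb0
    rw [← sum_div, ← mul_sum]
    apply div_le_div_of_nonneg_right _ (by positivity)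
    apply mul_le_mul_of_nonneg_left _ hC1.le
    refine le_trans ?_ (h2 H)
    rw [← sum_image (s := (range (H + 1)).filter (fun h' => h < h')) (g := fun h' => h' - h)
      (f := fun e => GG e ^ 2)]
    · apply sum_le_sum_of_subset_of_nonneg
      · intro e he
        rw [mem_image] at he
        obtain ⟨h', hh', rfl⟩ := he
        rw [mem_filter, mem_range] at hh'
        rw [mem_Ioc]
        omega
      · intro e _ _
        positivity
    · intro x hx y hy hxy
      simp only [coe_filter, mem_range, Set.mem_ofPred_eq] at hx hy hxy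
      omega
  refine (sum_le_sum e3).trans ?_
  rw [sum_const, card_range, nsmul_eq_mul]
  push_cast
  have e5 : ((H : ℝ) + 1) * (2 * (Bb * (C1 * (C2 * H) / (a : ℝ) ^ 2))) =
      2 * C1 * C2 * H * (H + 1) * Bb / (a : ℝ) ^ 2 := by ring
  rw [e5]
  apply div_le_div_of_nonneg_right _ (by positivity)
  apply mul_le_mul_of_nonneg_right _ hBb0
  have : 2 * C1 * C2 * H * (H + 1) ≤ 2 * C1 * C2 * H * (2 * H) := by
    apply mul_le_mul_of_nonneg_left _ (by positivity)
    linarith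
  nlinarith

end Pool.Agent.K7.H60.LK
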